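import Pool.Agent.Lib.MP_524519_ag.DU5.LNK.Iface

/-! # DU5, chapter LNK, module TYK: the type of the restriction of `IS p f j` -/

set_option autoImplicit false

namespace Pool.Agent.DU5.LNK

open MvPowerSeries

namespace TYK

variable {F : Type} [Field F]

theorem hasSubst {n : ℕ} (hn : n ≠ 0) {η : PowerSeries F}
    (hη : PowerSeries.constantCoeff η = 0) :
    HasSubst (![(PowerSeries.X : PowerSeries F) ^ n, η] : Fin 2 → PowerSeries F) := by
  apply hasSubst_of_constantCoeff_zero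
  intro s
  fin_cases s
  · show PowerSeries.constantCoeff ((PowerSeries.X : PowerSeries F) ^ n) = 0
    rw [map_pow, PowerSeries.constantCoeff_X, zero_pow hn]
  · exact hη

theorem ev_add {n : ℕ} (hn : n ≠ 0) {η : PowerSeries F}
    (hη : PowerSeries.constantCoeff η = 0) (a b : PC.R2 F) :
    PC.ev n η (a + b) = PC.ev n η a + PC.ev n η b := by
  unfold PC.ev
  rw [← coe_substAlgHom (hasSubst hn hη)]
  exact map_add _ _ _

theorem ev_mul {n : ℕ} (hn : n ≠ 0) {η : PowerSeries F}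
    (hη : PowerSeries.constantCoeff η = 0) (a b : PC.R2 F) :
    PC.ev n η (a * b) = PC.ev n η a * PC.ev n η b := by
  unfold PC.ev
  rw [← coe_substAlgHom (hasSubst hn hη)]
  exact map_mul _ _ _

theorem ev_zero {n : ℕ} (hn : n ≠ 0) {η : PowerSeries F}
    (hη : PowerSeries.constantCoeff η = 0) : PC.ev n η (0 : PC.R2 F) = 0 := by
  unfold PC.ev
  rw [← coe_substAlgHom (hasSubst hn hη)]
  exact map_zero _

end TYK

/-- TYK -/
theorem tyk (hS : SukStatement) (hA : ArkStatement) : TykStatement := by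
  intro p k F _ _ _ D lam hN hD1 f n η hn hnF hη hf j h hh
  obtain ⟨hc, hne, hvm, hjm⟩ := hA k F D lam hD1 n η hn hη
  obtain ⟨-, hev, hpd, -, -⟩ := hS k F lam
  have hη0 : PowerSeries.constantCoeff η = 0 := hc 0
  have hpf : PC.ev n η (pderiv F 1 (rs lam f)) = ev (arc lam n η) (pderiv k 0 f) := by
    rw [hpd, hev n η hn hη0]
  refine Submodule.span_induction (p := fun h _ =>
    PowerSeries.X ^ (j * n / p + 1) * PC.ev n η (pderiv F 1 (rs lam f)) ∣
      PowerSeries.X ^ (2 * n) * PC.ev n η h) ?_ ?_ ?_ ?_ hh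
  · rintro _ ⟨h0, h0I, rfl⟩
    obtain ⟨g, hg⟩ := h0I F D (arc lam n η) hN hc hne hf
    have hg0 := hg 0
    rw [hvm] at hg0
    rw [hpf, ← hev n η hn hη0]
    have hu : (n : PowerSeries F) * PowerSeries.C ((n : F)⁻¹) = 1 := by
      rw [← map_natCast (PowerSeries.C (R := F)) n, ← map_mul, mul_inv_cancel₀ hnF, map_one]
    refine ⟨g * PowerSeries.C ((n : F)⁻¹), ?_⟩
    rw [pow_succ]
    linear_combination (- (PowerSeries.X ^ (2 * n) * ev (arc lam n η) h0)) * hu -
      (PowerSeries.X * PowerSeries.C ((n : F)⁻¹)) * hg0 -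
      (ev (arc lam n η) h0 * PowerSeries.C ((n : F)⁻¹)) * hjm
  · rw [TYK.ev_zero hn hη0, mul_zero]
    exact dvd_zero _
  · intro a b _ _ ha hb
    rw [TYK.ev_add hn hη0, mul_add]
    exact dvd_add ha hb
  · intro c a _ ha
    rw [smul_eq_mul, TYK.ev_mul hn hη0, mul_left_comm]
    exact Dvd.dvd.mul_left ha _

end Pool.Agent.DU5.LNK
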